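import Pool.Agent.H84.SF.Geo2

/-!
# MP_70ba79_ag, THEOREM S, chapter 11, row PRX: the values of the local ring generate the field
-/

set_option autoImplicit false

namespace Pool.Agent.H90.SF

open Pool.Agent.H84.SF
open MvPolynomial SC
open Pool.Agent.H27.LV (ge deg poleOrder canDeg)
open Pool.Agent.H92.OD (HS cf sg uu Lat geO IsO DF DD)
open Pool.Agent.H84.SM (y1 y2 Near cr dt dp)
open Pool.Agent.H3.SF (Itg Bb BB Hm eu grd hes Sfc Crd Cnn Crf Prm nv)

/-- values of polynomials lie in the intermediate field -/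
theorem prx_aeval_mem {k K τ : Type} [Field k] [Field K] [Algebra k K]
    (M : IntermediateField k K) (z : τ → K) (hz : ∀ i, z i ∈ M) (f : MvPolynomial τ k) :
    aeval z f ∈ M := by
  induction f using MvPolynomial.induction_on with
  | C a =>
    rw [aeval_C]
    exact M.algebraMap_mem a
  | add P Q hP hQ =>
    rw [map_add]
    exact M.add_mem hP hQ
  | mul_X P i hP =>
    rw [map_mul, aeval_X]
    exact M.mul_mem hP (hz i)

theorem pf_PRX : T_PRX := by
  intro k F σ K _ _ _ _ _ _ X u dd J j0 hS s hs L0 hL0 hL0s φ x z hx hz hone hla hJ hprm ε v y hy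
  have hL0X : aeval X L0 ≠ 0 := fun h => hL0s (hs.pt L0 h)
  -- the coordinates in the ring of integral elements
  let Xb : σ → Bb k u := fun i => ⟨X i, hS.Xint i⟩
  have hXb : ∀ f : MvPolynomial σ k, ((aeval Xb f : Bb k u) : F) = aeval X f := by
    intro f
    have h1 := MvPolynomial.comp_aeval_apply (f := Xb) (Bb k u).val f
    exact h1
  have hφX : ∀ f : MvPolynomial σ k, φ (aeval Xb f) = aeval z f := by
    intro f
    rw [MvPolynomial.comp_aeval_apply (f := Xb) φ f]
    congr 2
    funext i
    exact hz i (Xb i) rfl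
  choose U hU1 hU2 using hS.ulin
  have hzU : ∀ l, aeval z (U l) = x l := by
    intro l
    rw [← hφX (U l)]
    exact hx l _ (by rw [hXb, hU2])
  let M : IntermediateField k K := IntermediateField.adjoin k (Set.range y)
  have hyM : ∀ h, y h ∈ M := fun h =>
    IntermediateField.subset_adjoin k (Set.range y) ⟨h, rfl⟩
  -- quotients of linear forms by `L0`
  have hlin : ∀ P : MvPolynomial σ k, P.IsHomogeneous 1 → ∃ m ∈ M, m * aeval z L0 = aeval z P := by
    intro P hP
    have hrep : Rep X (aeval X P / aeval X L0) 1 P L0 :=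
      ⟨hP, hL0, div_mul_cancel₀ _ hL0X⟩
    let h : Os X s := ⟨aeval X P / aeval X L0, 1, P, L0, hrep, hL0s⟩
    exact ⟨y h, hyM h, hy.val h 1 P L0 hrep⟩
  have hlaM : aeval z L0 ∈ M := by
    obtain ⟨j, hj⟩ := hone
    obtain ⟨m, hm, hm'⟩ := hlin (U j) (hU1 j)
    rw [hzU, hj] at hm'
    have h1 : aeval z L0 = m⁻¹ := eq_inv_of_mul_eq_one_right hm'
    rw [h1]
    exact M.inv_mem hm
  have hzM : ∀ i, z i ∈ M := by
    intro i
    obtain ⟨m, hm, hm'⟩ := hlin (MvPolynomial.X i) (isHomogeneous_X k i)
    rw [aeval_X] at hm'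
    rw [← hm']
    exact M.mul_mem hm hlaM
  have hzf : ∀ f : MvPolynomial σ k, aeval z f ∈ M := prx_aeval_mem M z hzM
  have hxM : ∀ l, x l ∈ M := fun l => by
    rw [← hzU l]
    exact hzf _
  have hJM : aeval x J ∈ M := prx_aeval_mem M x hxM J
  -- the values of `φ`
  have hφM : ∀ a : Bb k u, φ a ∈ M := by
    intro a
    have h1 := hS.JI (a : F) a.2
    rw [Algebra.adjoin_range_eq_range_aeval] at h1
    obtain ⟨f, hf⟩ := h1
    let ub : Fin 3 → Bb k u := fun l => aeval Xb (U l)
    have hub : ((aeval ub J : Bb k u) : F) = aeval u J := by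
      have h2 := MvPolynomial.comp_aeval_apply (f := ub) (Bb k u).val J
      have h3 : (fun i => (Bb k u).val (ub i)) = u := by
        funext l
        exact (hXb (U l)).trans (hU2 l)
      rw [h3] at h2
      exact h2
    have hφu : φ (aeval ub J) = aeval x J := by
      rw [MvPolynomial.comp_aeval_apply (f := ub) φ J]
      congr 2
      funext l
      exact (hφX (U l)).trans (hzU l)
    have h4 : aeval ub J * a = aeval Xb f := by
      apply Subtype.ext
      rw [hXb]
      rw [show ((aeval ub J * a : Bb k u) : F) = ((aeval ub J : Bb k u) : F) * (a : F) from rfl,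
        hub]
      exact hf.symm
    have h5 : aeval x J * φ a = aeval z f := by
      rw [← hφu, ← hφX f, ← h4, map_mul]
    have h6 : φ a = aeval z f / aeval x J := by
      rw [← h5, mul_div_cancel_left₀ _ hJ]
    rw [h6]
    exact M.div_mem (hzf f) hJM
  have hle : IntermediateField.adjoin k (Set.range φ) ≤ M := by
    rw [IntermediateField.adjoin_le_iff]
    rintro _ ⟨a, rfl⟩
    exact hφM a
  have htop : (⊤ : IntermediateField k K) ≤ M := by
    have h7 : IntermediateField.adjoin k (Set.range φ) = ⊤ := hprm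
    rw [← h7]
    exact hle
  exact top_le_iff.mp htop

end Pool.Agent.H90.SF
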