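import Pool.Agent.H84.SF.Geo2
import Pool.Agent.H54.SF.TRF

/-!
# MP_70ba79_ag, THEOREM S, chapter 11, row TRY: the equation in the frame
-/

set_option autoImplicit false

namespace Pool.Agent.H90.SF

open Pool.Agent.H84.SF
open MvPolynomial SC
open Pool.Agent.H27.LV (ge deg poleOrder canDeg)
open Pool.Agent.H92.OD (HS cf sg uu Lat geO IsO DF DD)
open Pool.Agent.H84.SM (y1 y2 Near cr dt dp)
open Pool.Agent.H3.SF (Itg Bb BB Hm eu grd hes Sfc Crd Cnn Crf Prm nv)
open Pool.Agent.H54.SF (mj eval₂_three)

theorem pf_TRY : T_TRY := by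
  intro k O K _ _ _ _ _ X G dX dG x D hD p A B hB h
  -- the polynomial after substitution
  let q : Fin 3 → MvPolynomial (Fin 2) O := fun i =>
    C (dX (p i)) * MvPolynomial.X 0 + C (dG (p i)) * MvPolynomial.X 1
  have hq : ∀ i, (q i).IsHomogeneous 1 := by
    intro i
    apply IsHomogeneous.add
    · have h1 := (isHomogeneous_C (Fin 2) (dX (p i))).mul
        (isHomogeneous_X O (0 : Fin 2))
      simpa using h1
    · have h1 := (isHomogeneous_C (Fin 2) (dG (p i))).mul
        (isHomogeneous_X O (1 : Fin 2))
      simpa using h1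
  have hBt : (aeval q B).IsHomogeneous 3 := by
    have h1 := hB.aeval q hq
    simpa using h1
  have hDp : ∀ l, D (x (p l)) = x (dX (p l)) * D (x X) + x (dG (p l)) * D (x G) :=
    fun l => hD (p l)
  have hev : eval₂ (x : O →+* K) (fun i : Fin 3 => D (x (p i))) B =
      eval₂ (x : O →+* K) ![D (x X), D (x G)] (aeval q B) := by
    have h1 : ∀ P : MvPolynomial (Fin 3) O, eval₂ (x : O →+* K)
        (fun i : Fin 3 => D (x (p i))) P =
        eval₂ (x : O →+* K) ![D (x X), D (x G)] (aeval q P) := by
      intro P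
      induction P using MvPolynomial.induction_on with
      | C a => simp
      | add P Q hP hQ => rw [eval₂_add, map_add, eval₂_add, hP, hQ]
      | mul_X P i hP =>
        rw [eval₂_mul, map_mul, eval₂_mul, hP, eval₂_X, aeval_X]
        congr 1
        simp only [q, eval₂_add, eval₂_mul, eval₂_C, eval₂_X, Matrix.cons_val_zero,
          Matrix.cons_val_one]
        simp only [hDp, RingHom.coe_coe]
    exact h1 B
  rw [hev, eval₂_three _ _ _ hBt] at h
  unfold EqK
  have hdt : ∀ a b c : Fin 3 → O, x (dt a b c) =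
      dt (fun i => x (a i)) (fun i => x (b i)) (fun i => x (c i)) := by
    intro a b c
    simp only [dt, dp, cr, Fin.sum_univ_three, map_add, map_mul, map_sub]
  have hDD : ∀ i, D (D (x (p i))) =
      (x (dX (dX (p i))) * D (x X) + x (dG (dX (p i))) * D (x G)) * D (x X) +
        x (dX (p i)) * D (D (x X)) +
      ((x (dX (dG (p i))) * D (x X) + x (dG (dG (p i))) * D (x G)) * D (x G) +
        x (dG (p i)) * D (D (x G))) := by
    intro i
    rw [hD (p i), map_add, Derivation.leibniz, Derivation.leibniz, hD (dX (p i)),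
      hD (dG (p i))]
    simp only [smul_eq_mul]
    ring
  have hsum : x A * dt (fun i => x (p i)) (fun i => D (x (p i))) (fun i => D (D (x (p i)))) =
      x (A * dt p (fun i => dX (p i)) (fun i => dG (p i))) *
        (D (x X) * D (D (x G)) - D (x G) * D (D (x X))) +
      ∑ j : Fin 4, x (A * cub dX dG p j) * D (x G) ^ (j : ℕ) * D (x X) ^ (3 - (j : ℕ)) := by
    have e1 : (fun i => D (D (x (p i)))) = fun i =>
      (x (dX (dX (p i))) * D (x X) + x (dG (dX (p i))) * D (x G)) * D (x X) +
        x (dX (p i)) * D (D (x X)) +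
      ((x (dX (dG (p i))) * D (x X) + x (dG (dG (p i))) * D (x G)) * D (x G) +
        x (dG (p i)) * D (D (x G))) := funext hDD
    have e2 : (fun i => D (x (p i))) = fun i =>
      x (dX (p i)) * D (x X) + x (dG (p i)) * D (x G) := funext fun i => hD (p i)
    rw [e1, e2]
    simp only [Fin.sum_univ_four, map_mul, cub, Matrix.cons_val_zero, Matrix.cons_val_one,
      Matrix.cons_val, map_add, hdt]
    generalize D (x X) = X1
    generalize D (x G) = G1
    generalize D X1 = X2
    generalize D G1 = G2
    simp only [dt, dp, cr, Fin.sum_univ_three, Fin.isValue, Fin.val_zero, Fin.val_one,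
      Fin.val_two]
    norm_num
    ring
  rw [hsum] at h
  unfold Aloc
  rw [← h, add_assoc, ← Finset.sum_add_distrib]
  congr 1
  refine Finset.sum_congr rfl fun j _ => ?_
  have e3 : bloc dX dG p A B j = A * cub dX dG p j + coeff (mj j) (aeval q B) := rfl
  rw [e3, map_add]
  simp only [Matrix.cons_val_zero, Matrix.cons_val_one, RingHom.coe_coe]
  ring

end Pool.Agent.H90.SF
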